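import Pool.Agent.Lib.MP_ca7d12_nt.UnitsA

set_option autoImplicit false

namespace Pool.Agent.MP_ca7d12_nt

/-- Raising the level of a unit by an arbitrary number `s` supported on the primes of `P`. -/
theorem levelS {R : Type*} [CommRing R] (hR : ∀ q : ℤ, IsUnit (q : R) → IsUnit q)
    (P D : ℤ) (hP0 : P ≠ 0) (hPD : P ^ 2 ∣ D) (η : Rˣ) (c : ℤ) (v : R)
    (h : (η : R) = (c : R) + (D : R) * v) (s : ℕ) (hs0 : s ≠ 0)
    (hs : ∀ p : ℕ, p.Prime → p ∣ s → (p : ℤ) ∣ P) :
    ∃ (η' : Rˣ) (c' r : ℤ) (y : R),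
      (η' : R) = (c' : R) + (D : R) * (s : R) * ((r : R) * v + (P : R) * y) ∧
      IsCoprime c' D ∧ IsCoprime r P := by
  induction s using Nat.strong_induction_on with
  | _ s ih =>
    by_cases h1 : s = 1
    · subst h1
      refine ⟨η, c, 1, 0, by rw [h]; push_cast; ring, ?_, isCoprime_one_left⟩
      exact UnitsA.coprime_of_unit hR c D (η : R) v η.isUnit ⟨1, by rw [h]; ring⟩
    · have hq := Nat.minFac_prime h1
      set p := s.minFac with hp
      obtain ⟨s', hs'⟩ := Nat.minFac_dvd s
      rw [← hp] at hs'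
      have hs'0 : s' ≠ 0 := by
        rintro rfl
        rw [mul_zero] at hs'
        exact hs0 hs'
      have hlt : s' < s := by
        have h2 := hq.two_le
        calc s' < 2 * s' := by omega
          _ ≤ p * s' := Nat.mul_le_mul_right _ h2
          _ = s := hs'.symm
      obtain ⟨η', c', r, y, h3, h4, h5⟩ := ih s' hlt hs'0 (fun q hqp hqs => hs q hqp (by
        rw [hs']; exact hqs.mul_left _))
      have hpP : (p : ℤ) ∣ P := hs p hq (by rw [hs']; exact Dvd.intro _ rfl)
      obtain ⟨D', hD'⟩ : P * (p : ℤ) ∣ D := by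
        refine Dvd.dvd.trans ?_ hPD
        rw [pow_two]
        exact mul_dvd_mul_left P hpP
      have hcP : IsCoprime c' P := h4.of_isCoprime_of_dvd_right
        ((Dvd.intro _ rfl : P ∣ P * (p : ℤ)).trans ⟨D', hD'⟩)
      set Y : R := (r : R) * v + (P : R) * y with hY
      obtain ⟨e, he⟩ := Polynomial.powAddExpansion (c' : R) ((D : R) * (s' : R) * Y) p
      refine ⟨η' ^ p, c' ^ p, c' ^ (p - 1) * r,
        (c' : R) ^ (p - 1) * y + e * (D' : R) * (s' : R) * Y ^ 2, ?_, h4.pow_left, ?_⟩
      · have hD2 : (D : R) = (P : R) * (p : R) * (D' : R) := by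
          rw [hD']; push_cast; ring
        have hs2 : (s : R) = (p : R) * (s' : R) := by
          rw [hs']; push_cast; ring
        have h6 : e * ((D : R) * (s' : R) * Y) ^ 2 =
            (D : R) * (s : R) * ((P : R) * (e * (D' : R) * (s' : R) * Y ^ 2)) := by
          rw [hs2]
          linear_combination (e * (D : R) * (s' : R) ^ 2 * Y ^ 2) * hD2
        rw [Units.val_pow_eq_pow_val, h3, he, h6, hs2]
        push_cast
        rw [hY]
        ring
      · exact (hcP.pow_left).mul_left h5

end Pool.Agent.MP_ca7d12_nt
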