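import Pool.Agent.Lib.MP_ca7d12_nt.Defs

set_option autoImplicit false

namespace Pool.Agent.MP_ca7d12_nt

open NumberField

private theorem det_emb_ne_zero (K : Type*) [Field K] [NumberField K]
    (σ : Fin 3 → K →+* ℝ) (hσ : Function.Injective σ) (ω : Module.Basis (Fin 3) ℤ (𝓞 K)) :
    Matrix.det (Matrix.of fun i j => σ i (ω j : K)) ≠ 0 := by
  intro h0
  obtain ⟨v, hv, hv0⟩ := Matrix.exists_vecMul_eq_zero_iff.2 h0
  have h1 : ∀ j, ∑ i, v i * σ i (ω j : K) = 0 := by
    intro j
    have := congrFun hv0 j
    simpa [Matrix.vecMul, dotProduct] using this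
  have h2 : ∀ x : 𝓞 K, ∑ i, v i * σ i (x : K) = 0 := by
    intro x
    have hx : (x : K) = ∑ j, ((ω.repr x j : ℤ) : K) * (ω j : K) := by
      conv_lhs => rw [← ω.sum_repr x]
      simp
    have h3 : ∀ i, v i * σ i (x : K) = ∑ j, ((ω.repr x j : ℤ) : ℝ) * (v i * σ i (ω j : K)) := by
      intro i
      rw [hx, map_sum, Finset.mul_sum]
      refine Finset.sum_congr rfl fun j _ => ?_
      rw [map_mul, map_intCast]
      ring
    rw [Finset.sum_congr rfl fun i _ => h3 i, Finset.sum_comm]
    refine Finset.sum_eq_zero fun j _ => ?_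
    rw [← Finset.mul_sum, h1, mul_zero]
  have h4 : ∀ x : K, ∑ i, v i * σ i x = 0 := by
    intro x
    obtain ⟨a, b, hb, hab⟩ := IsFractionRing.div_surjective (A := 𝓞 K) x
    have hb0 : algebraMap (𝓞 K) K b ≠ 0 := by
      simpa using nonZeroDivisors.ne_zero hb
    obtain ⟨n, hn0, c, hc⟩ : ∃ n : ℤ, n ≠ 0 ∧ ∃ c : 𝓞 K, (n : K) * x = (c : K) := by
      have hb1 : b ≠ 0 := nonZeroDivisors.ne_zero hb
      obtain ⟨c, hc⟩ : b ∣ ((Algebra.norm ℤ b : ℤ) : 𝓞 K) := by
        have := Ideal.absNorm_mem (Ideal.span {b})
        rw [Ideal.absNorm_span_singleton, Ideal.mem_span_singleton] at this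
        have h5 : (((Algebra.norm ℤ b).natAbs : ℕ) : 𝓞 K) ∣ ((Algebra.norm ℤ b : ℤ) : 𝓞 K) := by
          have h6 : ((Algebra.norm ℤ b).natAbs : ℤ) ∣ Algebra.norm ℤ b := Int.natAbs_dvd.2 dvd_rfl
          have h7 := map_dvd (Int.castRingHom (𝓞 K)) h6
          simpa using h7
        exact this.trans h5
      refine ⟨Algebra.norm ℤ b, Algebra.norm_ne_zero_iff.2 hb1, a * c, ?_⟩
      have h8 : ((Algebra.norm ℤ b : ℤ) : K) = (b : K) * (c : K) := by
        have := congrArg (fun z : 𝓞 K => (z : K)) hc
        simpa using this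
      have h9 : x = (a : K) / (b : K) := hab.symm
      rw [h8, h9]
      have hb2 : (b : K) ≠ 0 := hb0
      push_cast
      field_simp
    have h10 := h2 c
    rw [← hc] at h10
    have h11 : (n : ℝ) * ∑ i, v i * σ i x = 0 := by
      rw [← h10, Finset.mul_sum]
      refine Finset.sum_congr rfl fun i _ => ?_
      rw [map_mul, map_intCast]
      ring
    rcases mul_eq_zero.1 h11 with h12 | h12
    · exact absurd (by exact_mod_cast h12) hn0
    · exact h12
  have hinj : Function.Injective fun i => (σ i : K →* ℝ) := by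
    intro i j hij
    apply hσ
    ext x
    exact DFunLike.congr_fun hij x
  have hli := (linearIndependent_monoidHom K ℝ).comp (fun i => (σ i : K →* ℝ)) hinj
  rw [Fintype.linearIndependent_iff] at hli
  apply hv
  funext i
  refine hli v ?_ i
  funext x
  have := h4 x
  simpa [Finset.sum_apply] using this

/-- The determinant of the real embeddings of a triple of integers is a constant times the index of
the subgroup generated by the triple (the index is `0` if it is infinite). -/
theorem det_eq_index (K : Type*) [Field K] [NumberField K] (hK : Module.finrank ℚ K = 3)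
    (σ : Fin 3 → K →+* ℝ) (hσ : Function.Injective σ) :
    ∃ δ : ℝ, 0 < δ ∧ ∀ α : Fin 3 → 𝓞 K,
      |Matrix.det (Matrix.of fun i j => σ i (α j : K))| =
        δ * ((AddSubgroup.closure (Set.range α)).index : ℝ) := by
  classical
  have hfr : Module.finrank ℤ (𝓞 K) = 3 := by rw [RingOfIntegers.rank, hK]
  let ω : Module.Basis (Fin 3) ℤ (𝓞 K) := Module.finBasisOfFinrankEq ℤ (𝓞 K) hfr
  refine ⟨|Matrix.det (Matrix.of fun i j => σ i (ω j : K))|,
    abs_pos.2 (det_emb_ne_zero K σ hσ ω), fun α => ?_⟩
  have hmat : (Matrix.of fun i j => σ i (α j : K)) =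
      (Matrix.of fun i j => σ i (ω j : K)) * (ω.toMatrix α).map (Int.cast : ℤ → ℝ) := by
    ext i j
    rw [Matrix.mul_apply]
    have hx : (α j : K) = ∑ l, ((ω.repr (α j) l : ℤ) : K) * (ω l : K) := by
      conv_lhs => rw [← ω.sum_repr (α j)]
      simp
    rw [Matrix.of_apply, hx, map_sum]
    refine Finset.sum_congr rfl fun l _ => ?_
    rw [map_mul, map_intCast, Matrix.of_apply, Matrix.map_apply, Module.Basis.toMatrix_apply]
    ring
  have hdet : ((ω.toMatrix α).map (Int.cast : ℤ → ℝ)).det = (((ω.toMatrix α).det : ℤ) : ℝ) :=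
    ((Int.castRingHom ℝ).map_det (ω.toMatrix α)).symm
  have hidx : (AddSubgroup.closure (Set.range α)).index = (ω.toMatrix α).det.natAbs := by
    by_cases hd : (ω.toMatrix α).det = 0
    · rw [hd, Int.natAbs_zero]
      by_contra hn
      set n := (AddSubgroup.closure (Set.range α)).index with hndef
      have hmem : ∀ j, ∃ C : Fin 3 → ℤ, ∑ l, C l • α l = n • ω j := by
        intro j
        have h1 : n • ω j ∈ AddSubgroup.closure (Set.range α) :=
          AddSubgroup.nsmul_index_mem _ _
        rw [← Submodule.span_int_eq_addSubgroupClosure] at h1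
        have h2 : n • ω j ∈ Submodule.span ℤ (Set.range α) := h1
        exact (Submodule.mem_span_range_iff_exists_fun ℤ).1 h2
      choose C hC using hmem
      have hBC : ω.toMatrix α * Matrix.of (fun l j => C j l) = (n : ℤ) • 1 := by
        ext i j
        rw [Matrix.mul_apply]
        have h3 := congrArg (fun z => ω.repr z i) (hC j)
        simp only [map_sum, map_smul, map_nsmul, Finsupp.coe_finsetSum, Finset.sum_apply,
          Finsupp.smul_apply, smul_eq_mul, Module.Basis.repr_self] at h3
        simp only [Module.Basis.toMatrix_apply, Matrix.of_apply, Matrix.smul_apply,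
          Matrix.one_apply, smul_eq_mul]
        rw [show (∑ l, (ω.repr (α l)) i * C j l) = ∑ l, C j l * (ω.repr (α l)) i from
          Finset.sum_congr rfl fun l _ => mul_comm _ _, h3]
        simp [Finsupp.single_apply, eq_comm]
      have h4 := congrArg Matrix.det hBC
      rw [Matrix.det_mul, hd, zero_mul, Matrix.det_smul, Matrix.det_one, Fintype.card_fin,
        mul_one] at h4
      exact hn (by exact_mod_cast (pow_eq_zero_iff (n := 3) (by norm_num)).1 h4.symm)
    · have hli : LinearIndependent ℤ α := by
        rw [Fintype.linearIndependent_iff]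
        intro g hg
        have h1 : (ω.toMatrix α).mulVec g = 0 := by
          funext i
          have h2 := congrArg (fun z => ω.repr z i) hg
          simp only [map_sum, map_smul, Finsupp.coe_finsetSum, Finset.sum_apply,
            Finsupp.smul_apply, smul_eq_mul, map_zero, Finsupp.coe_zero, Pi.zero_apply] at h2
          simp only [Matrix.mulVec, dotProduct, Module.Basis.toMatrix_apply, Pi.zero_apply]
          rw [← h2]
          exact Finset.sum_congr rfl fun l _ => mul_comm _ _
        have h3 := Matrix.eq_zero_of_mulVec_eq_zero hd h1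
        exact fun i => congrFun h3 i
      have h5 := Submodule.natAbs_det_basis_change ω (Submodule.span ℤ (Set.range α))
        (Module.Basis.span hli)
      have h6 : ((↑) ∘ (Module.Basis.span hli) : Fin 3 → 𝓞 K) = α := by
        funext j
        rw [Function.comp_apply, Module.Basis.span_apply]
      rw [h6, Module.Basis.det_apply] at h5
      rw [h5, ← Submodule.span_int_eq_addSubgroupClosure]
      rfl
  rw [hmat, Matrix.det_mul, abs_mul, hdet, hidx, Nat.cast_natAbs, Int.cast_abs]

end Pool.Agent.MP_ca7d12_nt
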