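import Pool.Agent.Lib.MP_ca7d12_nt.T.Mink
import Pool.Agent.Lib.MP_ca7d12_nt.ProdEmb

set_option autoImplicit false

namespace Pool.Agent.MP_ca7d12_nt

open NumberField

/-- Chebotarev's inhomogeneous bound: a coset `g + Λ` without `0` contains an element whose norm is
at most a constant times the index of `Λ`. -/
theorem small_in_coset (K : Type*) [Field K] [NumberField K] (hK : Module.finrank ℚ K = 3)
    (σ : Fin 3 → K →+* ℝ) (hσ : Function.Injective σ) :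
    ∃ C : ℝ, 0 < C ∧ ∀ Λ : AddSubgroup (𝓞 K), Λ.index ≠ 0 → ∀ g : 𝓞 K, g ∉ Λ →
      ∃ y : 𝓞 K, y - g ∈ Λ ∧ y ≠ 0 ∧ ((|Algebra.norm ℤ y| : ℤ) : ℝ) ≤ C * (Λ.index : ℝ) := by
  classical
  obtain ⟨δ, hδ, hmink⟩ := minkowski_sub K hK σ hσ
  refine ⟨δ, hδ, ?_⟩
  intro Λ hΛ g hg
  have hex : ∃ n : ℕ, ∃ y : 𝓞 K, y - g ∈ Λ ∧ (Algebra.norm ℤ y).natAbs = n :=
    ⟨_, g, by simp, rfl⟩
  obtain ⟨y, hyg, hyn⟩ := Nat.find_spec hex
  have hmin : ∀ z : 𝓞 K, z - g ∈ Λ → (Algebra.norm ℤ y).natAbs ≤ (Algebra.norm ℤ z).natAbs := by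
    intro z hz
    rw [hyn]
    exact Nat.find_min' hex ⟨z, hz, rfl⟩
  have hy0 : y ≠ 0 := by
    rintro rfl
    apply hg
    have h := Λ.neg_mem hyg
    simpa using h
  refine ⟨y, hyg, hy0, ?_⟩
  by_contra hcon
  push Not at hcon
  have hne : ∀ z : 𝓞 K, z ≠ 0 → ∀ i, σ i (z : K) ≠ 0 := by
    intro z hz i h
    apply hz
    have h1 : (z : K) = 0 := (map_eq_zero (σ i)).1 h
    exact_mod_cast h1
  have hprod : ∏ i, |σ i (y : K)| = ((|Algebra.norm ℤ y| : ℤ) : ℝ) := by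
    rw [← Finset.abs_prod, prod_embeddings K hK σ hσ y]
    push_cast
    rfl
  obtain ⟨ξ, hξΛ, hξ0, hξ⟩ := hmink Λ hΛ (fun i => |σ i (y : K)|)
    (fun i => abs_pos.2 (hne y hy0 i)) (by rw [hprod]; exact hcon)
  have hplus : (y + ξ) - g ∈ Λ := by
    have h := Λ.add_mem hyg hξΛ
    have e : (y + ξ) - g = (y - g) + ξ := by ring
    rw [e]; exact h
  have hminus : (y - ξ) - g ∈ Λ := by
    have h := Λ.sub_mem hyg hξΛ
    have e : (y - ξ) - g = (y - g) - ξ := by ring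
    rw [e]; exact h
  have h1 := hmin _ hplus
  have h2 := hmin _ hminus
  have hcast : ∀ z : 𝓞 K, (((Algebra.norm ℤ z).natAbs : ℕ) : ℝ) = |((Algebra.norm ℤ z : ℤ) : ℝ)| := by
    intro z
    rw [Nat.cast_natAbs]
    push_cast
    rfl
  have h1' : |((Algebra.norm ℤ y : ℤ) : ℝ)| ≤ |((Algebra.norm ℤ (y + ξ) : ℤ) : ℝ)| := by
    rw [← hcast, ← hcast]; exact_mod_cast h1
  have h2' : |((Algebra.norm ℤ y : ℤ) : ℝ)| ≤ |((Algebra.norm ℤ (y - ξ) : ℤ) : ℝ)| := by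
    rw [← hcast, ← hcast]; exact_mod_cast h2
  have hmul : |((Algebra.norm ℤ y : ℤ) : ℝ)| * |((Algebra.norm ℤ y : ℤ) : ℝ)| ≤
      |((Algebra.norm ℤ (y + ξ) : ℤ) : ℝ)| * |((Algebra.norm ℤ (y - ξ) : ℤ) : ℝ)| :=
    mul_le_mul h1' h2' (abs_nonneg _) (abs_nonneg _)
  rw [← prod_embeddings K hK σ hσ y, ← prod_embeddings K hK σ hσ (y + ξ),
    ← prod_embeddings K hK σ hσ (y - ξ), Finset.abs_prod, Finset.abs_prod, Finset.abs_prod,
    ← Finset.prod_mul_distrib, ← Finset.prod_mul_distrib] at hmul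
  have hlt : ∏ i : Fin 3, (|σ i ((y + ξ : 𝓞 K) : K)| * |σ i ((y - ξ : 𝓞 K) : K)|) <
      ∏ i : Fin 3, (|σ i (y : K)| * |σ i (y : K)|) := by
    apply Finset.prod_lt_prod
    · intro i _
      rw [← abs_mul]
      apply abs_pos.2
      have ha : |σ i (ξ : K)| < |σ i (y : K)| := hξ i
      have hb : (σ i (ξ : K)) ^ 2 < (σ i (y : K)) ^ 2 := sq_lt_sq.2 ha
      have e : σ i ((y + ξ : 𝓞 K) : K) * σ i ((y - ξ : 𝓞 K) : K)
          = (σ i (y : K)) ^ 2 - (σ i (ξ : K)) ^ 2 := by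
        push_cast
        rw [map_add, map_sub]; ring
      rw [e]
      exact (sub_pos.2 hb).ne'
    · intro i _
      have ha : |σ i (ξ : K)| < |σ i (y : K)| := hξ i
      have hb : (σ i (ξ : K)) ^ 2 < (σ i (y : K)) ^ 2 := sq_lt_sq.2 ha
      have e : σ i ((y + ξ : 𝓞 K) : K) * σ i ((y - ξ : 𝓞 K) : K)
          = (σ i (y : K)) ^ 2 - (σ i (ξ : K)) ^ 2 := by
        push_cast
        rw [map_add, map_sub]; ring
      rw [← abs_mul, e, abs_mul_abs_self, abs_of_pos (sub_pos.2 hb)]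
      nlinarith [sq_nonneg (σ i (ξ : K))]
    · refine ⟨0, Finset.mem_univ _, ?_⟩
      have ha : |σ 0 (ξ : K)| < |σ 0 (y : K)| := hξ 0
      have hb : (σ 0 (ξ : K)) ^ 2 < (σ 0 (y : K)) ^ 2 := sq_lt_sq.2 ha
      have e : σ 0 ((y + ξ : 𝓞 K) : K) * σ 0 ((y - ξ : 𝓞 K) : K)
          = (σ 0 (y : K)) ^ 2 - (σ 0 (ξ : K)) ^ 2 := by
        push_cast
        rw [map_add, map_sub]; ring
      have hx : 0 < (σ 0 (ξ : K)) ^ 2 := by
        have := hne ξ hξ0 0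
        positivity
      rw [← abs_mul, e, abs_mul_abs_self, abs_of_pos (sub_pos.2 hb)]
      nlinarith
  exact absurd hmul (not_le.2 hlt)

end Pool.Agent.MP_ca7d12_nt
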