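import Pool.Agent.Lib.MP_ca7d12_nt.UnitsA
import Pool.Agent.Lib.MP_ca7d12_nt.CycAlg

set_option autoImplicit false

namespace Pool.Agent.MP_ca7d12_nt

/-- Independence of `1` and `v` modulo `n` from primitivity of `v` modulo the primes of `n`. -/
theorem indepS {R : Type*} [CommRing R] [IsDomain R] [CharZero R]
    (hR : ∀ q : ℤ, IsUnit (q : R) → IsUnit q) (v : R) (n : ℕ) (hn : n ≠ 0)
    (hv : ∀ p : ℕ, p.Prime → p ∣ n → ∀ (i : ℤ) (w : R), v ≠ (i : R) + (p : R) * w)
    (x y : ℤ) (h : (n : R) ∣ (x : R) + (y : R) * v) : (n : ℤ) ∣ x ∧ (n : ℤ) ∣ y := by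
  induction n using Nat.strong_induction_on generalizing x y with
  | _ n ih =>
    rcases Nat.lt_or_ge 1 n with h1 | h1
    · obtain ⟨p, hp, hpn⟩ := Nat.exists_prime_and_dvd (by omega : n ≠ 1)
      obtain ⟨m, rfl⟩ := hpn
      have hm : m ≠ 0 := by
        rintro rfl
        simp at hn
      have hpR : (p : R) ≠ 0 := by exact_mod_cast hp.ne_zero
      obtain ⟨w, hw⟩ := h
      have hp' : Prime (p : ℤ) := Nat.prime_iff_prime_int.mp hp
      have hy : (p : ℤ) ∣ y := by
        by_contra hny
        have hc : IsCoprime (p : ℤ) y := (Prime.coprime_iff_not_dvd hp').mpr hny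
        obtain ⟨b, a, hab⟩ := hc
        have h2 : (b : R) * (p : R) + (a : R) * (y : R) = 1 := by
          have := congrArg (fun z : ℤ => (z : R)) hab
          simpa using this
        refine hv p hp (Dvd.intro m rfl) (-(a * x)) (b * v + a * m * w) ?_
        push_cast at hw ⊢
        linear_combination (-v) * h2 + (a : R) * hw
      obtain ⟨y', rfl⟩ := hy
      have hx : (p : ℤ) ∣ x := by
        refine CycAlg.int_dvd hR p hp x (m * w - y' * v) ?_
        push_cast at hw ⊢
        linear_combination hw
      obtain ⟨x', rfl⟩ := hx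
      have hlt : m < p * m := by
        have := hp.two_le
        nlinarith [Nat.pos_of_ne_zero hm]
      have h3 : (m : R) ∣ (x' : R) + (y' : R) * v := by
        refine ⟨w, ?_⟩
        apply mul_left_cancel₀ hpR
        push_cast at hw
        linear_combination hw
      obtain ⟨h4, h5⟩ := ih m hlt hm
        (fun q hq hqm i w' => hv q hq (dvd_mul_of_dvd_right hqm p) i w') x' y' h3
      push_cast
      exact ⟨mul_dvd_mul_left _ h4, mul_dvd_mul_left _ h5⟩
    · have : n = 1 := by omega
      subst this
      simp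

end Pool.Agent.MP_ca7d12_nt
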