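import Pool.Agent.Lib.MP_ca7d12_nt.Defs

set_option autoImplicit false

namespace Pool.Agent.MP_ca7d12_nt

/-- For `n` supported on the primes of `S` there is `s`, supported on the same primes, with
`n ∣ s²` and `s² ∣ P n`. -/
theorem exists_sqrtS (S : Finset ℕ) (hS : ∀ p ∈ S, p.Prime) (n : ℕ) (hn : n ≠ 0)
    (hnS : ∀ p : ℕ, p.Prime → p ∣ n → p ∈ S) :
    ∃ s : ℕ, s ≠ 0 ∧ (∀ p : ℕ, p.Prime → p ∣ s → p ∈ S) ∧ n ∣ s ^ 2 ∧ s ^ 2 ∣ (∏ p ∈ S, p) * n := by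
  obtain ⟨a, b, hab, hsq⟩ := Nat.sq_mul_squarefree n
  have ha : a ≠ 0 := hsq.ne_zero
  have hb : b ≠ 0 := by
    rintro rfl
    apply hn
    rw [← hab]
    simp
  have han : a ∣ n := ⟨b ^ 2, by rw [← hab]; ring⟩
  have hbn : b ∣ n := ⟨b * a, by rw [← hab]; ring⟩
  have haS : a ∣ ∏ p ∈ S, p := by
    rw [← Nat.prod_primeFactors_of_squarefree hsq]
    apply Finset.prod_dvd_prod_of_subset
    intro p hp
    rw [Nat.mem_primeFactors] at hp
    exact hnS p hp.1 (hp.2.1.trans han)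
  refine ⟨a * b, mul_ne_zero ha hb, ?_, ?_, ?_⟩
  · intro p hp hpab
    rcases (hp.dvd_mul).1 hpab with h | h
    · exact hnS p hp (h.trans han)
    · exact hnS p hp (h.trans hbn)
  · exact ⟨a, by rw [← hab]; ring⟩
  · have e : (a * b) ^ 2 = a * n := by rw [← hab]; ring
    rw [e]
    exact Nat.mul_dvd_mul_right haS n

end Pool.Agent.MP_ca7d12_nt
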