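import Pool.Agent.Lib.MP_ca7d12_nt.T.LevelS
import Pool.Agent.Lib.MP_ca7d12_nt.T.Cheb
import Pool.Agent.Lib.MP_ca7d12_nt.T.IndepS
import Pool.Agent.Lib.MP_ca7d12_nt.T.SqrtS
import Pool.Agent.Lib.MP_ca7d12_nt.T.IndexLL
import Pool.Agent.Lib.MP_ca7d12_nt.ExistsUnit
import Pool.Agent.Lib.MP_ca7d12_nt.ExistsLevel
import Pool.Agent.Lib.MP_ca7d12_nt.Main

set_option autoImplicit false

namespace Pool.Agent.MP_ca7d12_nt

open NumberField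

namespace KeyT

/-- The unit part: from `y = g (c₁ + D s t v') + n z` to `y = (integer) g (unit) + n Z`. -/
theorem unit_part {R : Type*} [CommRing R] (ηs : Rˣ) (cs D t c₁ : ℤ) (s n : ℕ) (hn : n ≠ 0)
    (v' g y z : R) (hηs : (ηs : R) = (cs : R) + (D : R) * (s : R) * v')
    (hns : n ∣ s ^ 2) (hcs : IsCoprime cs (n : ℤ)) (hc₁ : IsCoprime c₁ (n : ℤ))
    (hy : y = g * ((c₁ : R) + (D : R) * (s : R) * (t : R) * v') + (n : R) * z) :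
    ∃ (u : Rˣ) (c : ℤ) (a b e : R), y = (c : R) * (g * (u : R)) +
      (n : R) * (a * y + b * z + e * g) := by
  obtain ⟨κ, lam, hκ⟩ := hcs
  obtain ⟨κ₁, lam₁, hκ₁⟩ := hc₁
  obtain ⟨q, hq⟩ := hns
  have hn' : (n : ℤ) ≠ 0 := by exact_mod_cast hn
  obtain ⟨τ, m, hτ0, hτ⟩ : ∃ (τ : ℕ) (m : ℤ), 0 < τ ∧ (τ : ℤ) = t * cs * κ₁ + n * m := by
    refine ⟨(t * cs * κ₁ % n).toNat + n, 1 - (t * cs * κ₁ / n), by omega, ?_⟩
    push_cast
    rw [Int.toNat_of_nonneg (Int.emod_nonneg _ hn')]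
    have := Int.emod_add_mul_ediv (t * cs * κ₁) n
    linarith
  set m' : ℤ := m * c₁ - t * cs * lam₁ with hm'
  have h1 : c₁ * (τ : ℤ) = t * cs + n * m' := by
    rw [hτ, hm']
    linear_combination (t * cs) * hκ₁
  have h1' : (c₁ : R) * (τ : R) = (t : R) * (cs : R) + (n : R) * (m' : R) := by
    have := congrArg (fun z : ℤ => (z : R)) h1
    simpa using this
  obtain ⟨e, he⟩ := Polynomial.powAddExpansion (cs : R) ((D : R) * (s : R) * v') τ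
  have hcsτ : (cs : R) * (cs : R) ^ (τ - 1) = (cs : R) ^ τ := by
    rw [← pow_succ']
    congr 1
    omega
  have hq' : (s : R) ^ 2 = (n : R) * (q : R) := by
    have := congrArg (fun z : ℕ => (z : R)) hq
    simpa using this
  set W : R := (m' : R) * (cs : R) ^ (τ - 1) * ((D : R) * (s : R) * v') +
    (c₁ : R) * e * (D : R) ^ 2 * (q : R) * v' ^ 2 with hW
  have h2 : (c₁ : R) * (ηs : R) ^ τ =
      (cs : R) ^ τ * ((c₁ : R) + (D : R) * (s : R) * (t : R) * v') + (n : R) * W := by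
    rw [hηs, he, hW]
    linear_combination ((cs : R) ^ (τ - 1) * ((D : R) * (s : R) * v')) * h1' +
      ((t : R) * (D : R) * (s : R) * v') * hcsτ + ((c₁ : R) * e * (D : R) ^ 2 * v' ^ 2) * hq'
  obtain ⟨ν, hν⟩ : (n : ℤ) ∣ 1 - (κ * cs) ^ τ := by
    have h3 : (1 : ℤ) - κ * cs ∣ 1 ^ τ - (κ * cs) ^ τ := sub_dvd_pow_sub_pow _ _ _
    rw [one_pow] at h3
    refine Dvd.dvd.trans ⟨lam, ?_⟩ h3
    linear_combination (-1 : ℤ) * hκ
  have hν' : (κ : R) ^ τ * (cs : R) ^ τ = 1 - (n : R) * (ν : R) := by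
    have := congrArg (fun z : ℤ => (z : R)) hν
    push_cast at this
    rw [mul_pow] at this
    linear_combination -this
  refine ⟨ηs ^ τ, κ ^ τ * c₁, (ν : R), (κ : R) ^ τ * (cs : R) ^ τ, -((κ : R) ^ τ * W), ?_⟩
  rw [Units.val_pow_eq_pow_val]
  push_cast
  linear_combination ((κ : R) ^ τ * (cs : R) ^ τ) * hy - y * hν' - ((κ : R) ^ τ * g) * h2

end KeyT

/-- Key lemma for modules over `ℤ + n 𝓞_K`: there is a nonzero element of norm at most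
`C n ^ (3/2)`. -/
theorem exists_small_T (K : Type*) [Field K] [NumberField K] (hK : Module.finrank ℚ K = 3)
    (σ : Fin 3 → K →+* ℝ) (hσ : Function.Injective σ) (S : Finset ℕ) (hS : ∀ p ∈ S, p.Prime)
    (I : Ideal (𝓞 K)) (hI : I ≠ ⊥) :
    ∃ C : ℝ, 0 < C ∧ ∀ (n : ℕ), IsSNumber S n → ∀ M : AddSubgroup (𝓞 K),
      Ideal.span (M : Set (𝓞 K)) = I → (∀ y ∈ I, (n : 𝓞 K) * y ∈ M) →
      (∃ g ∈ M, ∀ x ∈ M, ∃ c : ℤ, ∃ y ∈ I, x - (c : 𝓞 K) * g = (n : 𝓞 K) * y) →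
      ∃ x ∈ M, x ≠ 0 ∧ ((|Algebra.norm ℤ x| : ℤ) : ℝ) ^ 2 ≤ C * (n : ℝ) ^ 3 := by
  obtain ⟨η₀, hη₀⟩ := exists_unit K hK σ hσ
  have hR : ∀ q : ℤ, IsUnit (q : 𝓞 K) → IsUnit q := isUnit_of_isUnit_intCast K
  set P : ℤ := ∏ p ∈ S, (p : ℤ) with hP
  set PN : ℕ := ∏ p ∈ S, p with hPN
  have hPPN : P = (PN : ℤ) := by rw [hP, hPN]; push_cast; rfl
  have hPN0 : PN ≠ 0 := Finset.prod_ne_zero_iff.mpr fun p hp => (hS p hp).ne_zero
  have hP0 : P ≠ 0 := by rw [hPPN]; exact_mod_cast hPN0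
  have hSP : ∀ p ∈ S, (p : ℤ) ∣ P := fun p hp => by
    rw [hP]
    exact Finset.dvd_prod_of_mem (fun p : ℕ => (p : ℤ)) hp
  obtain ⟨η, c₀, D, v, hD, hPD, hη, hprim⟩ :=
    exists_level K η₀ hη₀ (P ^ 2) (pow_ne_zero 2 hP0)
  obtain ⟨C₀, hC₀, hcoset⟩ := small_in_coset K hK σ hσ
  obtain ⟨xI, hxI, hxI0⟩ := Submodule.exists_mem_ne_zero_of_ne_bot hI
  set B : ℝ := C₀ * ((Ideal.absNorm I : ℝ) * (PN : ℝ) * (D.natAbs : ℝ)) with hB
  refine ⟨B ^ 2 * PN + ((|Algebra.norm ℤ xI| : ℤ) : ℝ) ^ 2 + 1, by positivity, ?_⟩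
  rintro n ⟨hn0, hnS⟩ M hM hnM ⟨g, hgM, hcyc⟩
  have hn1 : (1 : ℝ) ≤ (n : ℝ) ^ 3 := by
    have : (1 : ℝ) ≤ (n : ℝ) := by exact_mod_cast Nat.one_le_iff_ne_zero.mpr hn0
    exact one_le_pow₀ this
  by_cases hn : n = 1
  · subst hn
    refine ⟨xI, by simpa using hnM xI hxI, hxI0, ?_⟩
    have : (0 : ℝ) ≤ B ^ 2 * PN := by positivity
    push_cast
    nlinarith
  -- the main case
  have hgI : g ∈ I := by rw [← hM]; exact Ideal.subset_span hgM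
  have hgen : ∀ y ∈ I, ∃ z : 𝓞 K, ∃ y' ∈ I, y = g * z + (n : 𝓞 K) * y' := by
    have hle : I ≤ Ideal.span {g} ⊔ Ideal.span {(n : 𝓞 K)} * I := by
      rw [← hM, Ideal.span_le]
      intro x hx
      obtain ⟨c, y, hy, hxy⟩ := hcyc x hx
      have : x = (c : 𝓞 K) * g + (n : 𝓞 K) * y := by linear_combination hxy
      rw [this]
      rw [hM]
      refine Ideal.add_mem _ (Ideal.mem_sup_left (Ideal.mul_mem_left _ _ (Ideal.mem_span_singleton_self g)))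
        (Ideal.mem_sup_right ?_)
      exact Ideal.mul_mem_mul (Ideal.mem_span_singleton_self _) hy
    intro y hy
    obtain ⟨a, ha, b, hb, hab⟩ := Submodule.mem_sup.mp (hle hy)
    obtain ⟨z, hz⟩ := Ideal.mem_span_singleton'.mp ha
    obtain ⟨y', hy', hby⟩ := Ideal.mem_span_singleton_mul.mp hb
    exact ⟨z, y', hy', by rw [← hab, ← hz, ← hby]; ring⟩
  obtain ⟨s, hs0, hsS, hns, hsn⟩ := exists_sqrtS S hS n hn0 hnS
  obtain ⟨ηs, cs, r, ys, hηs, hcsD, hrP⟩ := levelS hR P D hP0 hPD η c₀ v hη s hs0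
    (fun p hp hps => hSP p (hsS p hp hps))
  set v' : 𝓞 K := (r : 𝓞 K) * v + (P : 𝓞 K) * ys with hv'
  have hprim' : ∀ p : ℕ, p.Prime → p ∣ n → ∀ (i : ℤ) (w : 𝓞 K), v' ≠ (i : 𝓞 K) + (p : 𝓞 K) * w := by
    intro p hp hpn i w hiw
    have hpP := hSP p (hnS p hp hpn)
    have hrp : IsCoprime r (p : ℤ) := hrP.of_isCoprime_of_dvd_right hpP
    obtain ⟨P', hP'⟩ := hpP
    obtain ⟨a, b, hab⟩ := hrp
    have hab' : (a : 𝓞 K) * (r : 𝓞 K) + (b : 𝓞 K) * (p : 𝓞 K) = 1 := by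
      have := congrArg (fun z : ℤ => (z : 𝓞 K)) hab
      simpa using this
    have hP'' : (P : 𝓞 K) = (p : 𝓞 K) * (P' : 𝓞 K) := by rw [hP']; push_cast; ring
    refine hprim p hp (a * i) ((a : 𝓞 K) * w - (a : 𝓞 K) * (P' : 𝓞 K) * ys + (b : 𝓞 K) * v) ?_
    rw [hv', hP''] at hiw
    push_cast
    linear_combination (-v) * hab' + (a : 𝓞 K) * hiw
  have hind := fun x y => indepS hR v' n hn0 hprim' x y
  have hDn : D.natAbs ≠ 0 := Int.natAbs_ne_zero.mpr hD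
  obtain ⟨hidx0, hidx⟩ := index_LL K hK I hI n hn0 g v' PN (D.natAbs * s) hPN0
    (mul_ne_zero hDn hs0) hgI hgen hind
  have hnPN : ∃ k : ℕ, n ∣ PN ^ k := dvd_pow_of_primes PN n hn0 (fun p hp hpn =>
    Finset.dvd_prod_of_mem (fun p : ℕ => p) (hnS p hp hpn))
  obtain ⟨k, hk⟩ := hnPN
  have hk' : (n : ℤ) ∣ P ^ k := by rw [hPPN]; exact_mod_cast hk
  -- `1 + PN c` is coprime to `n`
  have hcop1 : ∀ c : ℤ, IsCoprime (1 + P * c) (n : ℤ) := by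
    intro c
    have h1 : IsCoprime (1 + P * c) P := ⟨1, -c, by ring⟩
    exact (h1.pow_right (n := k)).of_isCoprime_of_dvd_right hk'
  have hcsn : IsCoprime cs (n : ℤ) := by
    have h1 : IsCoprime cs P := hcsD.of_isCoprime_of_dvd_right
      ((dvd_pow_self P two_ne_zero).trans hPD)
    exact (h1.pow_right (n := k)).of_isCoprime_of_dvd_right hk'
  have hDs : ((D.natAbs : ℕ) : 𝓞 K) = (D.sign : 𝓞 K) * (D : 𝓞 K) := UnitsA.cast_natAbs' D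
  have hgΛ : g ∉ LL K I n g v' PN (D.natAbs * s) := by
    rintro ⟨c, t, z, hz, hgz⟩
    have h1 : g * (1 - ((PN : 𝓞 K) * (c : 𝓞 K) + ((D.natAbs * s : ℕ) : 𝓞 K) * (t : 𝓞 K) * v')) =
        (n : 𝓞 K) * z := by linear_combination hgz
    have h2 := dvd_of_mul_mem K I hI n hn0 g hgen _ z hz h1
    have h3 : (1 - ((PN : 𝓞 K) * (c : 𝓞 K) + ((D.natAbs * s : ℕ) : 𝓞 K) * (t : 𝓞 K) * v')) =
        ((1 + P * (-c) : ℤ) : 𝓞 K) + ((-(D.sign * D * (s : ℤ) * t) : ℤ) : 𝓞 K) * v' := by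
      rw [hPPN, Nat.cast_mul, hDs]
      push_cast
      ring
    rw [h3] at h2
    have h4 := (hind _ _ h2).1
    have h5 := hcop1 (-c)
    have h6 : IsUnit (n : ℤ) := h5.symm.isUnit_of_dvd' (dvd_refl _) h4
    have h7 : n = 1 := by
      have := Int.isUnit_iff.mp h6
      omega
    exact hn h7
  obtain ⟨y, hyΛ, hy0, hyN⟩ := hcoset _ hidx0 g hgΛ
  obtain ⟨c, t, z, hz, hyz⟩ := hyΛ
  -- rewrite `y`
  have hy : y = g * (((1 + P * c : ℤ) : 𝓞 K) + (D : 𝓞 K) * (s : 𝓞 K) * ((D.sign * t : ℤ) : 𝓞 K) * v') +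
      (n : 𝓞 K) * z := by
    rw [Nat.cast_mul, hDs] at hyz
    rw [hPPN]
    push_cast
    linear_combination hyz
  have hyI : y ∈ I := by
    rw [hy]
    exact I.add_mem (I.mul_mem_right _ hgI) (I.mul_mem_left _ hz)
  obtain ⟨u, c', a, b, e, hfin⟩ := KeyT.unit_part ηs cs D (D.sign * t) (1 + P * c) s n hn0 v' g y z
    hηs hns hcsn (hcop1 c) hy
  have huu : ((u⁻¹ : (𝓞 K)ˣ) : 𝓞 K) * (u : 𝓞 K) = 1 := Units.inv_mul u
  refine ⟨((u⁻¹ : (𝓞 K)ˣ) : 𝓞 K) * y, ?_, mul_ne_zero (Units.ne_zero _) hy0, ?_⟩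
  · have h1 : ((u⁻¹ : (𝓞 K)ˣ) : 𝓞 K) * y = c' • g +
        (n : 𝓞 K) * (((u⁻¹ : (𝓞 K)ˣ) : 𝓞 K) * (a * y + b * z + e * g)) := by
      rw [zsmul_eq_mul]
      linear_combination ((u⁻¹ : (𝓞 K)ˣ) : 𝓞 K) * hfin + (c' : 𝓞 K) * g * huu
    rw [h1]
    refine M.add_mem (M.zsmul_mem hgM c') (hnM _ (I.mul_mem_left _ ?_))
    exact I.add_mem (I.add_mem (I.mul_mem_left _ hyI) (I.mul_mem_left _ hz)) (I.mul_mem_left _ hgI)
  · rw [map_mul, abs_mul]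
    have h1 : IsUnit (Algebra.norm ℤ ((u⁻¹ : (𝓞 K)ˣ) : 𝓞 K)) := (Units.isUnit _).map _
    rw [Int.isUnit_iff_abs_eq.mp h1, one_mul]
    have h2 : ((|Algebra.norm ℤ y| : ℤ) : ℝ) ≤ B * ((n : ℝ) * (s : ℝ)) := by
      refine hyN.trans ?_
      have h3 : ((LL K I n g v' PN (D.natAbs * s)).index : ℝ) ≤
          (Ideal.absNorm I : ℝ) * ((n : ℝ) * (PN : ℝ) * ((D.natAbs : ℝ) * (s : ℝ))) := by
        exact_mod_cast hidx
      calc C₀ * ((LL K I n g v' PN (D.natAbs * s)).index : ℝ)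
          ≤ C₀ * ((Ideal.absNorm I : ℝ) * ((n : ℝ) * (PN : ℝ) * ((D.natAbs : ℝ) * (s : ℝ)))) :=
            mul_le_mul_of_nonneg_left h3 hC₀.le
        _ = B * ((n : ℝ) * (s : ℝ)) := by rw [hB]; ring
    have h4 : (0 : ℝ) ≤ ((|Algebra.norm ℤ y| : ℤ) : ℝ) := by exact_mod_cast abs_nonneg _
    have h5 : (s : ℝ) ^ 2 ≤ (PN : ℝ) * (n : ℝ) := by
      have := Nat.le_of_dvd (Nat.pos_of_ne_zero (mul_ne_zero hPN0 hn0)) hsn
      exact_mod_cast this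
    calc ((|Algebra.norm ℤ y| : ℤ) : ℝ) ^ 2 ≤ (B * ((n : ℝ) * (s : ℝ))) ^ 2 :=
          pow_le_pow_left₀ h4 h2 2
      _ = B ^ 2 * (n : ℝ) ^ 2 * (s : ℝ) ^ 2 := by ring
      _ ≤ B ^ 2 * (n : ℝ) ^ 2 * ((PN : ℝ) * (n : ℝ)) := by
          exact mul_le_mul_of_nonneg_left h5 (by positivity)
      _ = (B ^ 2 * (PN : ℝ)) * (n : ℝ) ^ 3 := by ring
      _ ≤ (B ^ 2 * PN + ((|Algebra.norm ℤ xI| : ℤ) : ℝ) ^ 2 + 1) * (n : ℝ) ^ 3 := by
          refine mul_le_mul_of_nonneg_right ?_ (by positivity)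
          nlinarith [sq_nonneg ((|Algebra.norm ℤ xI| : ℤ) : ℝ)]

end Pool.Agent.MP_ca7d12_nt
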