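import Pool.Agent.Lib.MP_ca7d12_nt.T.Defs
import Pool.Agent.Lib.MP_ca7d12_nt.T.DetIndex
import Pool.Agent.Lib.MP_ca7d12_nt.T.KeyT
import Pool.Agent.Lib.MP_ca7d12_nt.T.IndexGe
import Pool.Agent.Lib.MP_ca7d12_nt.Reduction
import Pool.Agent.Lib.MP_ca7d12_nt.FiniteValues

set_option autoImplicit false

namespace Pool.Agent.MP_ca7d12_nt

open NumberField

namespace MainT

variable {K : Type*} [Field K] [NumberField K]

theorem span_closure (I : Ideal (𝓞 K)) (α' : Fin 3 → 𝓞 K) (hspan : Ideal.span (Set.range α') = I) :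
    Ideal.span ((AddSubgroup.closure (Set.range α') : AddSubgroup (𝓞 K)) : Set (𝓞 K)) = I := by
  apply le_antisymm
  · rw [Ideal.span_le]
    intro x hx
    have h1 : AddSubgroup.closure (Set.range α') ≤ I.toAddSubgroup := by
      rw [AddSubgroup.closure_le]
      intro y hy
      have : y ∈ Ideal.span (Set.range α') := Ideal.subset_span hy
      rw [hspan] at this
      exact this
    exact h1 hx
  · rw [← hspan]
    exact Ideal.span_mono AddSubgroup.subset_closure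

theorem coe_int (c : ℤ) : (((c : ℤ) : 𝓞 K) : K) = (c : K) := map_intCast (algebraMap (𝓞 K) K) c

theorem coe_nat (c : ℕ) : (((c : ℕ) : 𝓞 K) : K) = (c : K) := map_natCast (algebraMap (𝓞 K) K) c

theorem coe_mul' (x y : 𝓞 K) : ((x * y : 𝓞 K) : K) = (x : K) * (y : K) := rfl

theorem coe_add' (x y : 𝓞 K) : ((x + y : 𝓞 K) : K) = (x : K) + (y : K) := rfl

theorem coe_sub' (x y : 𝓞 K) : ((x - y : 𝓞 K) : K) = (x : K) - (y : K) := rfl

theorem coe_neg' (x : 𝓞 K) : ((-x : 𝓞 K) : K) = -(x : K) := rfl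

theorem down (α : Fin 3 → K) (α' : Fin 3 → 𝓞 K) (lam : K) (hα' : ∀ j, (α' j : K) = lam * α j)
    (x : 𝓞 K) (hx : x ∈ AddSubgroup.closure (Set.range α')) :
    ∃ x₀ ∈ Submodule.span ℤ (Set.range α), (x : K) = lam * x₀ := by
  induction hx using AddSubgroup.closure_induction with
  | mem x hx =>
    obtain ⟨j, rfl⟩ := hx
    exact ⟨α j, Submodule.subset_span ⟨j, rfl⟩, hα' j⟩
  | zero => exact ⟨0, Submodule.zero_mem _, by simp⟩
  | add x y _ _ hx hy =>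
    obtain ⟨x₀, hx₀, hx⟩ := hx
    obtain ⟨y₀, hy₀, hy⟩ := hy
    exact ⟨x₀ + y₀, Submodule.add_mem _ hx₀ hy₀, by rw [coe_add', hx, hy]; ring⟩
  | neg x _ hx =>
    obtain ⟨x₀, hx₀, hx⟩ := hx
    exact ⟨-x₀, Submodule.neg_mem _ hx₀, by rw [coe_neg', hx]; ring⟩

theorem up (α : Fin 3 → K) (α' : Fin 3 → 𝓞 K) (lam : K) (hα' : ∀ j, (α' j : K) = lam * α j)
    (x₀ : K) (hx : x₀ ∈ Submodule.span ℤ (Set.range α)) :
    ∃ x ∈ AddSubgroup.closure (Set.range α'), (x : K) = lam * x₀ := by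
  induction hx using Submodule.span_induction with
  | mem x hx =>
    obtain ⟨j, rfl⟩ := hx
    exact ⟨α' j, AddSubgroup.subset_closure ⟨j, rfl⟩, hα' j⟩
  | zero => exact ⟨0, AddSubgroup.zero_mem _, by simp⟩
  | add x y _ _ hx hy =>
    obtain ⟨x₀, hx₀, hx⟩ := hx
    obtain ⟨y₀, hy₀, hy⟩ := hy
    exact ⟨x₀ + y₀, AddSubgroup.add_mem _ hx₀ hy₀, by rw [coe_add', hx, hy]; ring⟩
  | smul c x _ hx =>
    obtain ⟨x₀, hx₀, hx⟩ := hx
    refine ⟨c • x₀, AddSubgroup.zsmul_mem _ hx₀ c, ?_⟩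
    rw [zsmul_eq_mul, zsmul_eq_mul, coe_mul', coe_int, hx]
    ring

theorem value_le (hK : Module.finrank ℚ K = 3) (σ : Fin 3 → K →+* ℝ) (hσ : Function.Injective σ)
    (α' : Fin 3 → 𝓞 K) (x : 𝓞 K) (hx : x ∈ AddSubgroup.closure (Set.range α')) (hx0 : x ≠ 0) :
    markovMin (fun i j => σ i (α' j : K)) ≤ ((|Algebra.norm ℤ x| : ℤ) : ℝ) /
      |Matrix.det (Matrix.of fun i j => σ i (α' j : K))| := by
  have hx' : x ∈ Submodule.span ℤ (Set.range α') := by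
    have h1 : AddSubgroup.closure (Set.range α') ≤ (Submodule.span ℤ (Set.range α')).toAddSubgroup := by
      rw [AddSubgroup.closure_le]
      exact Submodule.subset_span
    exact h1 hx
  obtain ⟨c, hc⟩ := (Submodule.mem_span_range_iff_exists_fun ℤ).mp hx'
  refine csInf_le ⟨0, ?_⟩ ⟨c, ?_, ?_⟩
  · rintro r ⟨y, -, rfl⟩
    exact abs_nonneg _
  · rintro rfl
    apply hx0
    rw [← hc]
    simp
  · have h1 : ∀ i, ∑ j, σ i (α' j : K) * (c j : ℝ) = σ i (x : K) := by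
      intro i
      rw [← hc]
      simp [mul_comm]
    have h2 : (∏ i : Fin 3, ∑ j : Fin 3, σ i (α' j : K) * (c j : ℝ)) =
        ((Algebra.norm ℤ x : ℤ) : ℝ) := by
      rw [← prod_embeddings K hK σ hσ x]
      exact Finset.prod_congr rfl fun i _ => h1 i
    have h3 : (Matrix.det (fun i j => σ i (α' j : K) : Matrix (Fin 3) (Fin 3) ℝ)) =
        Matrix.det (Matrix.of fun i j => σ i (α' j : K)) := rfl
    rw [abs_div, h2, ← h3]
    push_cast
    rfl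

end MainT

open MainT in
/-- Main theorem for modules over the orders `ℤ + n 𝓞_K`. -/
theorem main_T (K : Type*) [Field K] [NumberField K] (hK : Module.finrank ℚ K = 3)
    (σ : Fin 3 → K →+* ℝ) (hσ : Function.Injective σ) (S : Finset ℕ) (hS : ∀ p ∈ S, p.Prime)
    (ε : ℝ) (hε : 0 < ε) :
    {m : ℝ | ∃ α : Fin 3 → K, LinearIndependent ℚ α ∧ (∃ n : ℕ, IsSNumber S n ∧ CyclicModulo K α n) ∧
      m = markovMin (fun i j => σ i (α j)) ∧ ε ≤ m}.Finite := by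
  obtain ⟨L, hL0, hL⟩ := exists_reduction K
  obtain ⟨δ, hδ, hdet⟩ := det_eq_index K hK σ hσ
  have hC : ∀ I : Ideal (𝓞 K), I ∈ L → ∃ C : ℝ, 0 < C ∧ ∀ (n : ℕ), IsSNumber S n →
      ∀ M : AddSubgroup (𝓞 K), Ideal.span (M : Set (𝓞 K)) = I → (∀ y ∈ I, (n : 𝓞 K) * y ∈ M) →
      (∃ g ∈ M, ∀ x ∈ M, ∃ c : ℤ, ∃ y ∈ I, x - (c : 𝓞 K) * g = (n : 𝓞 K) * y) →
      ∃ x ∈ M, x ≠ 0 ∧ ((|Algebra.norm ℤ x| : ℤ) : ℝ) ^ 2 ≤ C * (n : ℝ) ^ 3 :=
    fun I hI => exists_small_T K hK σ hσ S hS I (hL0 I hI)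
  choose! C hC0 hC using hC
  refine Set.Finite.subset (Set.Finite.biUnion (Finset.finite_toSet L)
    (fun I hI => finite_values K hK σ hσ I (hL0 I hI)
      (⌈C I * (C I / (ε * δ) ^ 2) ^ 3 + 1⌉) ε hε)) ?_
  rintro m ⟨α, hα, ⟨n, hnS, hst, g₀, hg₀, hcyc₀⟩, hm, hεm⟩
  obtain ⟨I, hI, lam, α', hlam, hα', hspan, hclo⟩ := hL α n hα hst
  refine Set.mem_biUnion (x := I) hI ?_
  have hsp := span_closure I α' hspan
  set M : AddSubgroup (𝓞 K) := AddSubgroup.closure (Set.range α') with hMdef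
  have hMI : ∀ x ∈ M, x ∈ I := fun x hx => by rw [← hsp]; exact Ideal.subset_span hx
  obtain ⟨g, hgM, hg⟩ := up α α' lam hα' g₀ hg₀
  have hcyc : ∀ x ∈ M, ∃ c : ℤ, ∃ y ∈ I, x - (c : 𝓞 K) * g = (n : 𝓞 K) * y := by
    intro x hx
    obtain ⟨x₀, hx₀, hxx⟩ := down α α' lam hα' x hx
    obtain ⟨c, hc⟩ := hcyc₀ x₀ hx₀
    have key : ∀ w ∈ Submodule.span ℤ {y : K | ∃ z : 𝓞 K,
        ∃ x' ∈ Submodule.span ℤ (Set.range α), y = (n : K) * (z : K) * x'},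
        ∃ y ∈ I, lam * w = (n : K) * (y : K) := by
      intro w hw
      induction hw using Submodule.span_induction with
      | mem w hw =>
        obtain ⟨z, x', hx', rfl⟩ := hw
        obtain ⟨x'', hx'', hxx''⟩ := up α α' lam hα' x' hx'
        refine ⟨z * x'', I.mul_mem_left _ (hMI _ hx''), ?_⟩
        rw [coe_mul', hxx'']
        ring
      | zero => exact ⟨0, I.zero_mem, by simp⟩
      | add x y _ _ hx hy =>
        obtain ⟨x₀, hx₀, hx⟩ := hx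
        obtain ⟨y₀, hy₀, hy⟩ := hy
        exact ⟨x₀ + y₀, I.add_mem hx₀ hy₀, by rw [coe_add', mul_add, hx, hy]; ring⟩
      | smul c x _ hx =>
        obtain ⟨x₀, hx₀, hx⟩ := hx
        refine ⟨(c : 𝓞 K) * x₀, I.mul_mem_left _ hx₀, ?_⟩
        rw [zsmul_eq_mul, coe_mul', coe_int]
        linear_combination (c : K) * hx
    obtain ⟨y, hy, hyy⟩ := key _ hc
    refine ⟨c, y, hy, ?_⟩
    apply RingOfIntegers.ext
    rw [coe_sub', coe_mul', coe_mul', coe_int, coe_nat, hxx, hg]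
    linear_combination hyy
  obtain ⟨x, hxM, hx0, hxN⟩ := hC I hI n hnS M hsp hclo ⟨g, hgM, hcyc⟩
  have hm' : m = markovMin (fun i j => σ i (α' j : K)) := by
    rw [hm, ← markovMin_scale (fun i j => σ i (α j)) (fun i => σ i lam)
      (fun i => (map_ne_zero (σ i)).mpr hlam)]
    congr 1
    funext i j
    rw [hα' j, map_mul]
  have hidx : n ^ 2 ≤ M.index :=
    index_ge K hK I (hL0 I hI) n hnS.1 M hMI hclo g (hMI g hgM) hcyc
  have hval := value_le hK σ hσ α' x hxM hx0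
  rw [← hm', hdet α', ← hMdef] at hval
  have hn1 : (1 : ℝ) ≤ (n : ℝ) := by exact_mod_cast Nat.one_le_iff_ne_zero.mpr hnS.1
  have hidx' : (n : ℝ) ^ 2 ≤ (M.index : ℝ) := by exact_mod_cast hidx
  set N : ℝ := ((|Algebra.norm ℤ x| : ℤ) : ℝ) with hN
  have hN0 : 0 ≤ N := by rw [hN]; exact_mod_cast abs_nonneg _
  have hpos : 0 < δ * (n : ℝ) ^ 2 := by positivity
  have h1 : ε * (δ * (n : ℝ) ^ 2) ≤ N := by
    have h2 : ε ≤ N / (δ * (M.index : ℝ)) := hεm.trans hval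
    have h3 : 0 < δ * (M.index : ℝ) := by
      have : 0 < (M.index : ℝ) := lt_of_lt_of_le (by positivity) hidx'
      positivity
    rw [le_div_iff₀ h3] at h2
    refine le_trans ?_ h2
    exact mul_le_mul_of_nonneg_left (mul_le_mul_of_nonneg_left hidx' hδ.le) hε.le
  have hεδ : 0 < (ε * δ) ^ 2 := by positivity
  have hn0 : (n : ℝ) ≤ C I / (ε * δ) ^ 2 := by
    rw [le_div_iff₀ hεδ]
    have h4 : (ε * (δ * (n : ℝ) ^ 2)) ^ 2 ≤ C I * (n : ℝ) ^ 3 :=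
      (pow_le_pow_left₀ (by positivity) h1 2).trans hxN
    have h5 : ((n : ℝ) * (ε * δ) ^ 2) * (n : ℝ) ^ 3 ≤ C I * (n : ℝ) ^ 3 := by
      calc ((n : ℝ) * (ε * δ) ^ 2) * (n : ℝ) ^ 3 = (ε * (δ * (n : ℝ) ^ 2)) ^ 2 := by ring
        _ ≤ _ := h4
    exact le_of_mul_le_mul_right h5 (by positivity)
  refine ⟨α', fun j => hMI _ (AddSubgroup.subset_closure ⟨j, rfl⟩), ⟨x, hxM, hx0, ?_⟩, hm', hεm⟩
  have h6 : N ≤ C I * (C I / (ε * δ) ^ 2) ^ 3 + 1 := by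
    have h7 : N ^ 2 ≤ C I * (C I / (ε * δ) ^ 2) ^ 3 :=
      hxN.trans (mul_le_mul_of_nonneg_left (pow_le_pow_left₀ (by positivity) hn0 3) (hC0 I hI).le)
    nlinarith [sq_nonneg (N - 1)]
  have h8 : N ≤ ((⌈C I * (C I / (ε * δ) ^ 2) ^ 3 + 1⌉ : ℤ) : ℝ) := h6.trans (Int.le_ceil _)
  rw [hN] at h8
  exact_mod_cast h8

end Pool.Agent.MP_ca7d12_nt
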