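import Pool.Agent.Lib.MP_ca7d12_nt.Defs
import Pool.Agent.Lib.MP_ca7d12_nt.T.DetIndex

set_option autoImplicit false

namespace Pool.Agent.MP_ca7d12_nt

open NumberField

/-- Minkowski's theorem on linear forms for subgroups of finite index of the ring of integers. -/
theorem minkowski_sub (K : Type*) [Field K] [NumberField K] (hK : Module.finrank ℚ K = 3)
    (σ : Fin 3 → K →+* ℝ) (hσ : Function.Injective σ) :
    ∃ δ : ℝ, 0 < δ ∧ ∀ Λ : AddSubgroup (𝓞 K), Λ.index ≠ 0 → ∀ t : Fin 3 → ℝ, (∀ i, 0 < t i) →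
      δ * (Λ.index : ℝ) < ∏ i, t i → ∃ ξ ∈ Λ, ξ ≠ 0 ∧ ∀ i, |σ i (ξ : K)| < t i := by
  classical
  obtain ⟨δ, hδ, hdet⟩ := det_eq_index K hK σ hσ
  refine ⟨δ, hδ, fun Λ hΛ t ht hlt => ?_⟩
  have : Λ.FiniteIndex := ⟨hΛ⟩
  have hfr : Module.finrank ℤ (AddSubgroup.toIntSubmodule Λ) = 3 := by
    have h1 : Module.finrank ℤ Λ = Module.finrank ℤ (𝓞 K) := AddSubgroup.finrank_eq_of_finiteIndex Λ
    rw [RingOfIntegers.rank, hK] at h1
    exact h1
  let b : Module.Basis (Fin 3) ℤ (AddSubgroup.toIntSubmodule Λ) :=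
    Module.finBasisOfFinrankEq ℤ _ hfr
  set α : Fin 3 → 𝓞 K := fun j => (b j : 𝓞 K) with hα
  have hαΛ : ∀ j, α j ∈ Λ := fun j => (b j).2
  have hspan : Submodule.span ℤ (Set.range α) = AddSubgroup.toIntSubmodule Λ := by
    have h1 : Set.range α = (AddSubgroup.toIntSubmodule Λ).subtype '' Set.range b := by
      rw [← Set.range_comp]
      rfl
    rw [h1, Submodule.span_image, b.span_eq, Submodule.map_subtype_top]
  have hclos : AddSubgroup.closure (Set.range α) = Λ := by
    rw [← Submodule.span_int_eq_addSubgroupClosure, hspan]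
    rfl
  have hd := hdet α
  rw [hclos] at hd
  have hidx : (0 : ℝ) < (Λ.index : ℝ) := by
    exact_mod_cast Nat.pos_of_ne_zero hΛ
  set v : Fin 3 → Fin 3 → ℝ := fun j i => σ i (α j : K) with hv
  have hvdet : |(Matrix.of v).det| = δ * (Λ.index : ℝ) := by
    rw [← hd, ← Matrix.det_transpose]
    rfl
  have hvne : (Matrix.of v).det ≠ 0 := by
    intro h0
    rw [h0, abs_zero] at hvdet
    have := mul_pos hδ hidx
    linarith
  have hli : LinearIndependent ℝ v := Matrix.linearIndependent_rows_of_det_ne_zero hvne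
  let bR : Module.Basis (Fin 3) ℝ (Fin 3 → ℝ) :=
    basisOfLinearIndependentOfCardEqFinrank hli (by simp)
  have hbR : (bR : Fin 3 → Fin 3 → ℝ) = v := coe_basisOfLinearIndependentOfCardEqFinrank hli _
  have fund := ZSpan.isAddFundamentalDomain' bR MeasureTheory.volume
  have hvolF : MeasureTheory.volume (ZSpan.fundamentalDomain bR) =
      ENNReal.ofReal (δ * (Λ.index : ℝ)) := by
    rw [ZSpan.volume_fundamentalDomain, hbR, hvdet]
  set S : Set (Fin 3 → ℝ) := Set.pi Set.univ (fun i => Set.Ioo (-t i) (t i)) with hS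
  have hvolS : MeasureTheory.volume S = ENNReal.ofReal (8 * ∏ i, t i) := by
    rw [hS, Real.volume_pi_Ioo, ← ENNReal.ofReal_prod_of_nonneg (fun i _ => by linarith [ht i])]
    congr 1
    simp only [Fin.prod_univ_three]
    ring
  have hcd : Countable (Submodule.span ℤ (Set.range bR)).toAddSubgroup := by
    have : Countable (Submodule.span ℤ (Set.range bR)) := inferInstance
    exact this
  obtain ⟨x, hx0, hxS⟩ := MeasureTheory.exists_ne_zero_mem_lattice_of_measure_mul_two_pow_lt_measure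
    (μ := MeasureTheory.volume) (s := S) fund
    (by
      intro x hx
      rw [hS, Set.mem_pi] at hx ⊢
      intro i hi
      have := hx i hi
      simp only [Set.mem_Ioo, Pi.neg_apply] at this ⊢
      constructor <;> linarith [this.1, this.2])
    (by
      rw [hS]
      exact convex_pi (fun i _ => convex_Ioo _ _))
    (by
      rw [hvolF, hvolS]
      have h8 : (2 : ENNReal) ^ Module.finrank ℝ (Fin 3 → ℝ) = ENNReal.ofReal 8 := by
        simp only [Module.finrank_fintype_fun_eq_card, Fintype.card_fin]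
        rw [show (8 : ℝ) = 2 ^ 3 by norm_num, ENNReal.ofReal_pow (by norm_num)]
        norm_num
      rw [h8, ← ENNReal.ofReal_mul (by positivity)]
      apply (ENNReal.ofReal_lt_ofReal_iff _).mpr
      · linarith
      · have : 0 < ∏ i, t i := Finset.prod_pos (fun i _ => ht i)
        positivity)
  have hxm' : ∀ y ∈ (Submodule.span ℤ (Set.range bR)).toAddSubgroup,
      y ∈ Submodule.span ℤ (Set.range v) := by
    rw [hbR]
    intro y hy
    exact hy
  have hxm : (x : Fin 3 → ℝ) ∈ Submodule.span ℤ (Set.range v) := hxm' _ x.2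
  obtain ⟨c, hc⟩ := (Submodule.mem_span_range_iff_exists_fun ℤ).1 hxm
  have hσξ : ∀ i, σ i ((∑ j, c j • α j : 𝓞 K) : K) = (x : Fin 3 → ℝ) i := by
    intro i
    rw [← hc, Finset.sum_apply]
    have h1 : ((∑ j, c j • α j : 𝓞 K) : K) = ∑ j, (c j : K) * (α j : K) := by
      simp [zsmul_eq_mul]
    rw [h1, map_sum]
    refine Finset.sum_congr rfl fun j _ => ?_
    rw [map_mul, map_intCast, Pi.smul_apply, zsmul_eq_mul]
  refine ⟨∑ j, c j • α j, ?_, ?_, ?_⟩
  · exact AddSubgroup.sum_mem _ (fun j _ => AddSubgroup.zsmul_mem _ (hαΛ j) _)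
  · intro h0
    apply hx0
    apply Subtype.ext
    funext i
    rw [← hσξ i, h0]
    simp
  · intro i
    rw [hσξ i, abs_lt]
    have := hxS i (Set.mem_univ i)
    exact this

end Pool.Agent.MP_ca7d12_nt
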