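import Pool.Agent.Lib.MP_ca7d12_nt.Defs

set_option autoImplicit false

namespace Pool.Agent.MP_ca7d12_nt

open NumberField

/-- The lattice `M = ℤ α₀ + ℤ α₁ + ℤ α₂` is stable under `n 𝓞_K`, and the quotient of `M` by
`n 𝓞_K M` is a cyclic group (generated by the class of some `g ∈ M`). Equivalently, `M` is a locally
free module of rank one over the order `ℤ + n 𝓞_K`. -/
def CyclicModulo (K : Type*) [Field K] [NumberField K] (α : Fin 3 → K) (n : ℕ) : Prop :=
  StableUnder K α n ∧
    ∃ g ∈ Submodule.span ℤ (Set.range α), ∀ x ∈ Submodule.span ℤ (Set.range α), ∃ c : ℤ,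
      x - (c : K) * g ∈ Submodule.span ℤ {y : K | ∃ z : 𝓞 K,
        ∃ x' ∈ Submodule.span ℤ (Set.range α), y = (n : K) * (z : K) * x'}

end Pool.Agent.MP_ca7d12_nt
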