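import Pool.Agent.Lib.MP_ca7d12_nt.T.IndexDefs

set_option autoImplicit false

namespace Pool.Agent.MP_ca7d12_nt

open NumberField

/-- If `g x ∈ n I` and `g` generates `I` modulo `n I` then `n` divides `x`. -/
theorem dvd_of_mul_mem (K : Type*) [Field K] [NumberField K]
    (I : Ideal (𝓞 K)) (hI : I ≠ ⊥) (n : ℕ) (hn : n ≠ 0) (g : 𝓞 K)
    (hgen : ∀ y ∈ I, ∃ z : 𝓞 K, ∃ y' ∈ I, y = g * z + (n : 𝓞 K) * y')
    (x z : 𝓞 K) (hz : z ∈ I) (h : g * x = (n : 𝓞 K) * z) : (n : 𝓞 K) ∣ x := by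
  have h1 : Ideal.span {x} * I ≤ Ideal.span {(n : 𝓞 K)} * I := by
    rw [Ideal.mul_le]
    intro r hr y hy
    obtain ⟨s, rfl⟩ := Ideal.mem_span_singleton'.1 hr
    obtain ⟨z', y', hy', rfl⟩ := hgen y hy
    have e : s * x * (g * z' + (n : 𝓞 K) * y') =
        (n : 𝓞 K) * (s * z' * z + s * x * y') := by
      calc s * x * (g * z' + (n : 𝓞 K) * y') = s * z' * (g * x) + (n : 𝓞 K) * (s * x * y') := by
            ring
        _ = (n : 𝓞 K) * (s * z' * z + s * x * y') := by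
            rw [h]
            ring
    rw [e]
    exact Ideal.mul_mem_mul (Ideal.mem_span_singleton_self _)
      (I.add_mem (I.mul_mem_left _ hz) (I.mul_mem_left _ hy'))
  have h2 : Ideal.span {x} ≤ Ideal.span {(n : 𝓞 K)} := by
    have h3 : Ideal.span {(n : 𝓞 K)} * I ∣ Ideal.span {x} * I := Ideal.dvd_iff_le.2 h1
    exact Ideal.dvd_iff_le.1 ((mul_dvd_mul_iff_right hI).1 h3)
  exact Ideal.span_singleton_le_span_singleton.1 h2

end Pool.Agent.MP_ca7d12_nt
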