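import Pool.Agent.Lib.MP_ca7d12_nt.Defs

set_option autoImplicit false

namespace Pool.Agent.MP_ca7d12_nt

open NumberField

/-- The subgroup `g (a ℤ + b v ℤ) + n I` of the ideal `I`. -/
def LL (K : Type*) [Field K] [NumberField K] (I : Ideal (𝓞 K)) (n : ℕ) (g v : 𝓞 K) (a b : ℕ) :
    AddSubgroup (𝓞 K) where
  carrier := {y | ∃ (c t : ℤ), ∃ z ∈ I,
    y = g * ((a : 𝓞 K) * (c : 𝓞 K) + (b : 𝓞 K) * (t : 𝓞 K) * v) + (n : 𝓞 K) * z}
  add_mem' := by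
    rintro _ _ ⟨c, t, z, hz, rfl⟩ ⟨c', t', z', hz', rfl⟩
    refine ⟨c + c', t + t', z + z', I.add_mem hz hz', ?_⟩
    push_cast
    ring
  zero_mem' := ⟨0, 0, 0, I.zero_mem, by push_cast; ring⟩
  neg_mem' := by
    rintro _ ⟨c, t, z, hz, rfl⟩
    refine ⟨-c, -t, -z, I.neg_mem hz, ?_⟩
    push_cast
    ring

end Pool.Agent.MP_ca7d12_nt
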